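import Pool.Agent.W623.SecC.Prime

/-!
# A criterion at one prime for hyperelliptic curves over number fields without sections

Let `K` be a number field, `g ∈ O_K[x]` a polynomial of even degree `≥ 4`, `b ∈ O_K` and let `v` be a
prime of `K` that does not divide `2` nor the leading coefficient of `g`, such that `g` is separable
without a root modulo `v` and the valuation of `b` at `v` is odd.  Then the smooth projective curve
`b y² = g(x)` has no point over `K` and its fundamental group has no section, and the same is true for
the curves `b yⁿ = g(x)` with `n` even, for their open subcurves and for all smooth curves over `K`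
that dominate them.  So all these curves satisfy the section conjecture.

The factors of `g` may have odd degree, as for `7 y² = (x³ - 2)(x³ - 3)` over `ℚ` and `v = 7`.  Then
the curve has index 1, so that the abelianised fundamental group has a section, over `K` and over all
completions of `K`, and the obstruction is not abelian.

The fundamental group is described through valuations.  Let `U` be a smooth geometrically connected
curve over `k` with function field `F`, let `Ω` be an algebraic closure of `F`, and let `F_U` be the
maximal extension of `F` inside `Ω` which is unramified over the closed points of `U`, that is, over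
their local rings, which are valuation rings of `F`.  Then `π₁(U) = Gal(F_U/F)`, and the map
`π₁(U) → G_k` is the restriction of automorphisms to the algebraic closure of `k` in `Ω`.


Proof.  Let `s` be a section, `v` the valuation, `π` a uniformiser.  Let `S` be a subfield of `k̄`
stable under a Frobenius element, containing the roots `θ` of `f` and the square roots of its
`v`-units, whose value group is the one of `k`.  For two roots the function `(x - θ)/(x - θ')` has a
square root in `F_U`; being fixed by `s(G_S)`, it is `π^j β²` with `β` fixed by `s(G_S)`.  The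
parities of the `j` define a partition of the roots in two classes with an odd number of elements,
stable under Frobenius.  If both classes have at least three elements, take four roots, two in each
class.  They give an elliptic curve `w² = (z - e₀)(z - e₁)(z - e₂)` with good reduction and a point
`(z, w)` fixed by `s(G_S)` and by `s(φ)` for a power `φ` of Frobenius, such that some `z - e_i` has
odd parity.  The functions with divisor `2ⁿ(P - ∞)`, for the points `P` of order dividing `2ⁿ`, have
`2ⁿ`-th roots in `F_U`, and this gives a homomorphism from the group of these points to `ℤ/2ⁿ` which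
is invariant under `φ`.  As only finitely many points of order a power of `2` are fixed by `φ`, it is
killed by an integer that does not depend on `n`, and so the parities of the `z - e_i` are even, which
is a contradiction.  So one of the classes has one element, which is fixed by Frobenius, and `f` has
a root in the residue field of `v`.
-/

open Polynomial NumberField IsDedekindDomain

namespace Pool.Agent.Results.MP_c1dca2_ag.PrimeCriterion

universe u v w

section definitions

variable (k : Type u) (F : Type v) (Ω : Type w) [Field k] [Field F] [Field Ω] [Algebra k F]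
  [Algebra F Ω] [Algebra k Ω]

/-- The inertia group of the valuation ring `W` of `Ω`, as a subgroup of `Gal(Ω/F)`: the
automorphisms of `Ω` over `F` that map `W` onto itself and act as the identity on its residue
field. -/
noncomputable def inertia (W : ValuationSubring Ω) : Subgroup (Ω ≃ₐ[F] Ω) :=
  (W.inertiaSubgroup F).map (W.decompositionSubgroup F).subtype

/-- `F_U`, for a set `U` of valuation rings of `F`: the elements of `Ω` fixed by the inertia groups
of all valuation rings `W` of `Ω` with `W ∩ F ∈ U`.  If `Ω` is an algebraic closure of a field `F`
of characteristic zero, this is the maximal extension of `F` in `Ω` unramified over `U`. -/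
noncomputable def unramified (U : Set (ValuationSubring F)) : IntermediateField F Ω :=
  ⨅ W : {W : ValuationSubring Ω // W.comap (algebraMap F Ω) ∈ U},
    IntermediateField.fixedField (inertia F Ω W.1)

/-- The map `τ : M → M` acts as `σ : K → K` on the elements that the fields `K` and `M` have in
common when they are regarded as subfields of `Ω` through `i` and `j`. -/
def ActsAs {K M Ω : Type*} [Field K] [Field M] [Field Ω] (i : K →+* Ω) (j : M →+* Ω) (σ : K → K)
    (τ : M → M) : Prop :=
  ∀ c z, j z = i c → j (τ z) = i (σ c)

/-- Let `k ⊆ K ⊆ Ω` and `F ⊆ M ⊆ Ω` be fields.  A splitting of `Gal(M/F) → Gal(K/k)`: a continuous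
homomorphism `s` from `Gal(K/k)` to `Gal(M/F)` such that `s(σ)` acts as `σ` on the elements of
`K ∩ M`. -/
structure Splitting (K M : Type*) [Field K] [Field M] [Algebra k K] [Algebra F M] [Algebra K Ω]
    [Algebra M Ω] where
  /-- the homomorphism `Gal(K/k) → Gal(M/F)` -/
  toHom : (K ≃ₐ[k] K) →* (M ≃ₐ[F] M)
  cont : Continuous toHom
  compat : ∀ σ : K ≃ₐ[k] K, ActsAs (algebraMap K Ω) (algebraMap M Ω) σ (toHom σ)

/-- The sections of `π₁(U) = Gal(F_U/F) → G_k`: the continuous homomorphisms `s` from
`G_k = Gal(k̄/k)` to `Gal(F_U/F)`, where `k̄` is the algebraic closure of `k` in `Ω`, such that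
`s(σ)` acts as `σ` on the elements of `k̄`. -/
def GaloisSection (U : Set (ValuationSubring F)) : Type w :=
  Splitting k F Ω (algebraicClosure k Ω) (unramified F Ω U)

end definitions

/-- The smooth projective curve `a yⁿ = f(x)`, where `n` divides the degree of `f`, has no point
over `k`: neither in the affine part nor at infinity. -/
def NoPoint {k : Type u} [Field k] (n : ℕ) (a : k) (f : k[X]) : Prop :=
  (¬ ∃ x y : k, a * y ^ n = f.eval x) ∧ ¬ ∃ r : k, a * r ^ n = f.leadingCoeff

/-- Let `F` be any field over `k` that contains a point `(x, y)` of the curve `a yⁿ = f(x)`, for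
instance the function field of the curve, and let `Ω` be an algebraic closure of `F`.  Then for
every set `U` of valuation rings of `F` over `k` there is no section of `π₁(U) → G_k`.  If `F` is the
function field of the curve, such `U` are given by the smooth projective curve and by all its open
subcurves. -/
def NoSection {k : Type u} [Field k] (n : ℕ) (a : k) (f : k[X]) : Prop :=
  ∀ (F : Type v) (Ω : Type w) [Field F] [Field Ω] [Algebra k F] [Algebra F Ω] [Algebra k Ω]
    [IsScalarTower k F Ω] [IsAlgClosure F Ω] (x y : F) (U : Set (ValuationSubring F)),
    algebraMap k F a * y ^ n = aeval x f → (∀ O ∈ U, ∀ c : k, algebraMap k F c ∈ O) →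
      IsEmpty (GaloisSection k F Ω U)

/-- Let `K` be a number field, `g ∈ O_K[x]` of even degree `≥ 4`, `P` a prime of `K` not dividing `2`
nor the leading coefficient of `g`, such that `g` is separable and has no root modulo `P`, and `b` an
element of `O_K` which lies in an odd power `P ^ m` but not in `P ^ (m + 1)`.  Then for all even `n ≥ 2`
the curve `b yⁿ = g(x)` has no point over `K` and no section. -/
theorem result (K : Type u) [Field K] [NumberField K] (g : (𝓞 K)[X]) (hev : Even g.natDegree)
    (h4 : 4 ≤ g.natDegree) (P : HeightOneSpectrum (𝓞 K)) (h2 : (2 : 𝓞 K) ∉ P.asIdeal)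
    (hlc : g.leadingCoeff ∉ P.asIdeal) (hs : (g.map (Ideal.Quotient.mk P.asIdeal)).Separable)
    (hroot : ∀ r : 𝓞 K ⧸ P.asIdeal, (g.map (Ideal.Quotient.mk P.asIdeal)).eval r ≠ 0)
    (b : 𝓞 K) (m : ℕ) (hm : Odd m) (hb : b ∈ P.asIdeal ^ m) (hb' : b ∉ P.asIdeal ^ (m + 1))
    (n : ℕ) (hn : 0 < n) (hne : Even n) :
    NoPoint n (algebraMap (𝓞 K) K b) (g.map (algebraMap (𝓞 K) K)) ∧
      NoSection.{u, v, w} n (algebraMap (𝓞 K) K b) (g.map (algebraMap (𝓞 K) K)) := by
  obtain ⟨l, rfl⟩ := hne
  have hlck : (g.map (algebraMap (𝓞 K) K)).leadingCoeff = algebraMap (𝓞 K) K g.leadingCoeff :=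
    leadingCoeff_map_of_injective (IsFractionRing.injective (𝓞 K) K) g
  refine ⟨⟨?_, ?_⟩, ?_⟩
  · rintro ⟨x, y, hxy⟩
    refine Pool.Agent.W623.SecC.prime_no_point P h2 g hlc hs hroot b m hm hb hb' hev x (y ^ l) ?_
    rw [← hxy, ← pow_mul, mul_two]
  · rintro ⟨r, hr⟩
    refine Pool.Agent.W623.SecC.prime_no_infinite P h2 g hlc hs hroot b m hm hb hb' (r ^ l) ?_
    rw [← hlck, ← hr, ← pow_mul, mul_two]
  · intro F Ω _ _ _ _ _ _ _ x y U hxy hU
    have hcl : IsAlgClosed Ω := IsAlgClosure.isAlgClosed F
    have halg : Algebra.IsAlgebraic F Ω := IsAlgClosure.isAlgebraic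
    have h5 := Pool.Agent.W623.SecC.prime_no_section (F := F) (Ω := Ω) P h2 g hlc hs hroot b m hm hb
      hb' hev h4 U hU x (y ^ l) (by rw [← hxy, ← pow_mul, mul_two])
    exact ⟨fun s => h5.false ⟨s.toHom, s.cont, s.compat⟩⟩

end Pool.Agent.Results.MP_c1dca2_ag.PrimeCriterion
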